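import Pool.Agent.Lib.MP_cfc9ed_co.E

/-!
# MP_cfc9ed_co: large 9-connected Cayley graphs of abelian groups have `K_{4,k}` minors

`SimpleGraph.circulantGraph S` is Mathlib's Cayley graph of an additive group with connection set
`S`: `u` and `v` are adjacent if and only if `u ≠ v` and `u - v ∈ S` or `v - u ∈ S`.
-/

set_option autoImplicit false

namespace Pool.Agent.Results.MP_cfc9ed_co.AbelianCayley

open SimpleGraph

/-- There is `f : ℕ → ℕ` such that for every `k`, every 9-connected Cayley graph of a finite abelian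
group with at least `f k` vertices contains `K_{4,k}` as a minor. -/
theorem result :
    ∃ f : ℕ → ℕ, ∀ (k : ℕ) (A : Type) [AddCommGroup A] [Fintype A] (S : Set A),
      (9 < Fintype.card A ∧
        ∀ X : Finset A, X.card < 9 → ((circulantGraph S).induce ((↑X : Set A)ᶜ)).Connected) →
      f k ≤ Fintype.card A →
      ∃ φ : (Fin 4 ⊕ Fin k) → Set A,
        (∀ w, ((circulantGraph S).induce (φ w)).Connected) ∧
        (∀ w w', w ≠ w' → Disjoint (φ w) (φ w')) ∧
        (∀ w w', (completeBipartiteGraph (Fin 4) (Fin k)).Adj w w' →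
          ∃ u ∈ φ w, ∃ v ∈ φ w', (circulantGraph S).Adj u v) := by
  choose f hf using AbCay.exists_bound
  exact ⟨f, fun k A _ _ S hc hk => hf k A S hc hk⟩

end Pool.Agent.Results.MP_cfc9ed_co.AbelianCayley
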