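import Pool.Agent.Lib.MP_cfc9ed_co.T5

/-!
# MP_cfc9ed_co: large `κ`-connected graphs of tree-width at most `κ` have `K_{a,k}` minors, `κ ≥ 2a+1`

For `a = 4`, `κ = 9`: every 9-connected graph of tree-width at most 9 with at least `f k` vertices
contains `K_{4,k}` as a minor.
-/

set_option autoImplicit false

namespace Pool.Agent.Results.MP_cfc9ed_co.MinTreewidth

open SimpleGraph

/-- `G` has tree-width at most `n`: there is a tree `T` and there are bags `B t` with at most `n + 1`
elements such that every vertex and every edge of `G` is in a bag, and for every vertex `v` of `G` the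
nodes `t` with `v ∈ B t` induce a connected subgraph of `T`. -/
def TreewidthLE {V : Type} (G : SimpleGraph V) (n : ℕ) : Prop :=
  ∃ (ι : Type) (T : SimpleGraph ι) (B : ι → Finset V), T.IsTree ∧
    (∀ v, ∃ t, v ∈ B t) ∧
    (∀ u v, G.Adj u v → ∃ t, u ∈ B t ∧ v ∈ B t) ∧
    (∀ v, (T.induce {t | v ∈ B t}).Connected) ∧
    ∀ t, (B t).card ≤ n + 1

/-- For all `a` and `κ ≥ 2a + 1` there is `f : ℕ → ℕ` such that for every `k`, every `κ`-connected graph
of tree-width at most `κ` with at least `f k` vertices contains `K_{a,k}` as a minor. -/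
theorem result (a κ : ℕ) (ha : 2 * a + 1 ≤ κ) :
    ∃ f : ℕ → ℕ, ∀ (k : ℕ) (V : Type) [Fintype V] (G : SimpleGraph V),
      (κ < Fintype.card V ∧
        ∀ X : Finset V, X.card < κ → (G.induce ((↑X : Set V)ᶜ)).Connected) →
      TreewidthLE G κ →
      f k ≤ Fintype.card V →
      ∃ φ : (Fin a ⊕ Fin k) → Set V,
        (∀ w, (G.induce (φ w)).Connected) ∧
        (∀ w w', w ≠ w' → Disjoint (φ w) (φ w')) ∧
        (∀ w w', (completeBipartiteGraph (Fin a) (Fin k)).Adj w w' →
          ∃ u ∈ φ w, ∃ v ∈ φ w', G.Adj u v) := by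
  choose f hf using fun k => TWk.main a κ k ha
  refine ⟨f, fun k V _ G hG hT hk => hf k V G hG ?_ hk⟩
  obtain ⟨ι, T, B, h1, _, h3, h4, h5⟩ := hT
  exact ⟨ι, T, B, h1, h3, h4, h5⟩

end Pool.Agent.Results.MP_cfc9ed_co.MinTreewidth
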