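import Pool.Agent.Lib.MP_cfc9ed_co.NJ

/-!
# MP_cfc9ed_co: sparse parts with small boundary

Let `κ ≥ a + 4`. For every `k` there is `m` (`δ = 1 / m`) such that every `κ`-connected graph `G` which
has a set `W` of at least `1 / δ` vertices with at most `δ |W|` outer neighbours such that

* `G[W]` has average degree at most `κ - a + 2 + δ`, or
* at least `(a - 2 - δ) |W|` edges leave `W`

contains `K_{a,k}` as a minor. In particular, a `9`-connected graph without `K_{4,k}` minor has no set
`W` with few outer neighbours such that the average degree of `G[W]` is at most `7 + δ`; it is far from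
every surface, also from surfaces of genus `δ n`.
-/

set_option autoImplicit false

namespace Pool.Agent.Results.MP_cfc9ed_co.SparseParts

open SimpleGraph

/-- For all `a ≥ 2`, `κ ≥ a + 4` and `k` there is `m ≥ 1` such that every `κ`-connected graph `G` which
has a set `W` of at least `m` vertices with at most `|W| / m` outer neighbours and with

* at most `(κ + 2 - a + 1 / m) |W| / 2` edges of `G[W]`, or
* at least `(a - 2 - 1 / m) |W|` edges leaving `W`,

contains `K_{a,k}` as a minor. -/
theorem result (a κ k : ℕ) (ha : 2 ≤ a) (hκ : a + 4 ≤ κ) :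
    ∃ m : ℕ, 1 ≤ m ∧ ∀ (V : Type) [Fintype V] (G : SimpleGraph V),
      (κ < Fintype.card V ∧
        ∀ X : Finset V, X.card < κ → (G.induce ((↑X : Set V)ᶜ)).Connected) →
      ∀ W : Finset V, m ≤ W.card →
      m * {v | v ∉ W ∧ ∃ w ∈ W, G.Adj w v}.ncard ≤ W.card →
      (2 * m * (G.induce (↑W : Set V)).edgeSet.ncard ≤ (m * (κ + 2 - a) + 1) * W.card ∨
        m * (a - 2) * W.card ≤
          m * {p : V × V | p.1 ∈ W ∧ p.2 ∉ W ∧ G.Adj p.1 p.2}.ncard + W.card) →
      ∃ φ : (Fin a ⊕ Fin k) → Set V,
        (∀ w, (G.induce (φ w)).Connected) ∧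
        (∀ w w', w ≠ w' → Disjoint (φ w) (φ w')) ∧
        (∀ w w', (completeBipartiteGraph (Fin a) (Fin k)).Adj w w' →
          ∃ u ∈ φ w, ∃ v ∈ φ w', G.Adj u v) := by
  obtain ⟨b, rfl⟩ : ∃ b, a = b + 2 := ⟨a - 2, by omega⟩
  obtain ⟨m, hm1, hm⟩ := TWk.sparse_parts b κ k (by omega)
  refine ⟨m, hm1, fun V _ G hG W hW hX he => hm V G hG W hW hX ?_⟩
  have h1 : κ + 2 - (b + 2) = κ - b := by omega
  have h2 : b + 2 - 2 = b := by omega
  rw [h1, h2] at he
  exact he

end Pool.Agent.Results.MP_cfc9ed_co.SparseParts
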